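import Pool.Agent.H3.FlowProof

set_option autoImplicit false

namespace Pool.Agent.Results.MP_a73859_co.Counterexample

open Pool.Agent.H3.FlowDefs

/-- A 3-connected simple graph with a vertex of odd degree and a flow root in `(1,2)`. -/
theorem result : ∃ G : SimpleGraph (Fin 11), ThreeConnected G ∧
    (∃ v, Odd (G.neighborSet v).ncard) ∧ ∃ q : ℝ, 1 < q ∧ q < 2 ∧ flowPoly G q = 0 := by
  refine ⟨H3.FlowProof.G, H3.FlowProof.three, ⟨1, ?_⟩, H3.FlowProof.root⟩
  rw [← Nat.card_coe_set_eq, Nat.card_eq_fintype_card, SimpleGraph.card_neighborSet_eq_degree]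
  exact H3.FlowProof.odd

end Pool.Agent.Results.MP_a73859_co.Counterexample
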